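import Pool.Agent.QEP.Stmts

/-!
# QEP, rows ADJ, LEV, INJ
-/

namespace Pool.Agent.QEP.H90

open Pool.Agent.QEP

/-- ADJ. -/
theorem adj (hS : SGNStmt) : ADJStmt := by
  obtain ⟨hx, hy, -, -, hp⟩ := hS
  intro i
  have h1 := hp i
  have h2 := hp (i + 1)
  have h3 : sx (i + 1) * sy (i + 1) = - (sx i * sy i) := by rw [h1, h2, pow_succ]; ring
  have c1 : cx (i + 1) = cx i + sx i := by unfold cx; rw [Finset.sum_range_succ]
  have c2 : cy (i + 1) = cy i + sy i := by unfold cy; rw [Finset.sum_range_succ]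
  unfold X Y
  rw [c1, c2]
  rcases hx i with a | a <;> rcases hy i with b | b <;> rcases hx (i + 1) with c | c <;>
    rcases hy (i + 1) with d | d <;> rw [a, b, c, d] at h3 <;> rw [a, b, c, d] <;> omega

/-- the digits are `0, 1, 2` -/
theorem digX (hD : DIGStmt) (i : ℕ) : 3 * X (i / 9) ≤ X i ∧ X i ≤ 3 * X (i / 9) + 2 := by
  have h := hD.1 i
  have h9 : i % 9 / 3 ≤ 2 := by omega
  split_ifs at h <;> omega

theorem digY (hD : DIGStmt) (i : ℕ) : 3 * Y (i / 9) ≤ Y i ∧ Y i ≤ 3 * Y (i / 9) + 2 := by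
  have h := hD.2 i
  have h9 : i % 3 ≤ 2 := by omega
  split_ifs at h <;> omega

theorem X_zero : X 0 = 0 := by
  unfold X cx
  rw [sx]
  simp

theorem Y_zero : Y 0 = 0 := by
  unfold Y cy
  rw [sy]
  simp

theorem lev_aux (P : ℕ → ℤ) (hP : ∀ i, 3 * P (i / 9) ≤ P i ∧ P i ≤ 3 * P (i / 9) + 2) (h0 : P 0 = 0) :
    (∀ k i, P (i / 9 ^ k) = P i / 3 ^ k) ∧ (∀ i, 0 ≤ P i) := by
  have h1 : ∀ i, P (i / 9) = P i / 3 := by
    intro i
    have := hP i
    omega
  constructor
  · intro k
    induction k with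
    | zero => intro i; simp
    | succ k ih =>
      intro i
      rw [pow_succ, ← Nat.div_div_eq_div_mul, h1, ih, pow_succ,
        Int.ediv_ediv_of_nonneg (by positivity)]
  · intro i
    induction i using Nat.strong_induction_on with
    | _ i ih =>
      rcases Nat.eq_zero_or_pos i with rfl | hi
      · rw [h0]
      · have h2 := ih (i / 9) (Nat.div_lt_self hi (by norm_num))
        have := hP i
        omega

/-- LEV. -/
theorem lev (hD : DIGStmt) : LEVStmt := by
  obtain ⟨a, b⟩ := lev_aux X (digX hD) X_zero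
  obtain ⟨c, d⟩ := lev_aux Y (digY hD) Y_zero
  exact ⟨a, c, b, d⟩

/-- INJ. -/
theorem inj (hD : DIGStmt) : INJStmt := by
  have key : ∀ n i j : ℕ, i + j ≤ n → X i = X j → Y i = Y j → i = j := by
    intro n
    induction n with
    | zero => intro i j h _ _; omega
    | succ n ih =>
      intro i j h hX hY
      rcases Nat.eq_zero_or_pos (i + j) with h0 | h0
      · omega
      have x1 := digX hD i
      have x2 := digX hD j
      have y1 := digY hD i
      have y2 := digY hD j
      have hX' : X (i / 9) = X (j / 9) := by omega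
      have hY' : Y (i / 9) = Y (j / 9) := by omega
      have hq : i / 9 = j / 9 := ih (i / 9) (j / 9) (by omega) hX' hY'
      have e1 := hD.1 i
      have e2 := hD.1 j
      have e3 := hD.2 i
      have e4 := hD.2 j
      rw [← hq] at e2 e4
      have hb : i % 9 / 3 = j % 9 / 3 := by
        split_ifs at e1 e2 <;> omega
      rw [← hb] at e4
      have ha : i % 3 = j % 3 := by
        split_ifs at e3 e4 <;> omega
      omega
  exact fun i j hX hY => key (i + j) i j le_rfl hX hY

end Pool.Agent.QEP.H90
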